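import Pool.Agent.Helper68_CM.Spg

/-!
# BCK: base change to a larger number field (CM project)
-/

set_option autoImplicit false
set_option linter.unusedSectionVars false

noncomputable section

namespace Pool.Agent.Helper95_CM.H68

open HahnSeries

section
variable {q : ℕ} {R S T : Type} [CommRing R] [CommRing S] [CommRing T]

lemma mC_comp (f : R →+* S) (g : S →+* T) (x : CC q R) :
    mC q g (mC q f x) = mC q (g.comp f) x := by
  apply HahnSeries.ext
  funext m
  rfl

lemma mO_comp (f : R →+* S) (g : S →+* T) (x : OO q R) :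
    mO q g (mO q f x) = mO q (g.comp f) x := by
  apply HahnSeries.ext
  funext m
  exact mC_comp f g (x.coeff m)

lemma mL_comp (f : R →+* S) (g : S →+* T) (x : LL q R) :
    mL q g (mL q f x) = mL q (g.comp f) x := by
  apply HahnSeries.ext
  funext m
  exact mO_comp f g (x.coeff m)

end

section
variable {q : ℕ} {K K' : Type} [Field K] [Field K']

lemma SprC.base (j : K →+* K') {x : CC q K} (hx : SprC x) : SprC (mC q j x) := by
  obtain ⟨p0, h⟩ := hx
  refine ⟨p0, fun p _ hp ι => ?_⟩
  obtain ⟨y, hy⟩ := h p hp (ι.comp j)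
  exact ⟨y, by rw [mC_comp, hy]⟩

lemma SprL.base (j : K →+* K') {x : LL q K} (hx : SprL x) : SprL (mL q j x) := by
  obtain ⟨p0, h⟩ := hx
  refine ⟨p0, fun p _ hp ι => ?_⟩
  obtain ⟨y, hy⟩ := h p hp (ι.comp j)
  exact ⟨y, by rw [mL_comp, hy]⟩

lemma kF_base (j : K →+* K') {x : OO q K} (hx : x ∈ kF q K) : mO q j x ∈ kF q K' := by
  have h1 : kF q K ≤ (kF q K').comap (mO q j) := by
    unfold kF
    rw [Subfield.closure_le]
    rintro x (⟨y, hy, rfl⟩ | hx)
    · change mO q j (HahnSeries.single 0 y) ∈ kF q K'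
      unfold mO
      rw [hmap_single']
      exact Subfield.subset_closure (Or.inl ⟨_, SprC.base j hy, rfl⟩)
    · rw [Set.mem_singleton_iff] at hx
      subst hx
      change mO q j (HahnSeries.single 1 1) ∈ kF q K'
      unfold mO
      rw [hmap_single', map_one]
      exact Subfield.subset_closure (Or.inr rfl)
  exact h1 hx

lemma InG.base (j : K →+* K') {x : LL q K} (hx : InG x) : InG (mL q j x) :=
  ⟨SprL.base j hx.1, fun m => kF_base j (hx.2 m)⟩

end

theorem bck : BckStmt := by
  intro q K K' _ _ _ _ j I _ _ L Q hQ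
  refine ⟨fun a b => ?_, fun N => ?_⟩
  · rw [Matrix.map_apply]
    exact InG.base j (hQ.1 a b)
  · obtain ⟨C, p0, h⟩ := hQ.2 N
    refine ⟨C, p0, fun p _ hp ι Q' hL => ?_⟩
    refine h p hp (ι.comp j) Q' ?_
    unfold LiftM at hL ⊢
    rw [← hL]
    ext a b
    rw [Matrix.map_apply, Matrix.map_apply, Matrix.map_apply, mL_comp]

end Pool.Agent.Helper95_CM.H68
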