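import Pool.Agent.Helper33_CM.Ord
import Pool.Agent.Helper75_CM.Base
import Pool.Agent.Helper10_CM.Bas

/-!
# CM project (MP_31342c_an), module KAP: the derivative of the top coordinate
-/

set_option autoImplicit false
set_option linter.unusedSectionVars false

noncomputable section

namespace Pool.Agent.Helper95_CM.H68

open MvPolynomial
open Pool.Agent.Helper95_CM.H33

section der
variable {R : Type} [CommRing R]

lemma mulLeft_app (a x : R) : (AddMonoidHom.mulLeft a) x = a * x := rfl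

lemma isDer_add {d1 d2 : R →+ R} (h1 : IsDer d1) (h2 : IsDer d2) : IsDer (d1 + d2) := by
  intro x y
  simp only [AddMonoidHom.add_apply]
  rw [h1, h2]
  ring

lemma isDer_sub {d1 d2 : R →+ R} (h1 : IsDer d1) (h2 : IsDer d2) : IsDer (d1 - d2) := by
  intro x y
  simp only [AddMonoidHom.sub_apply]
  rw [h1, h2]
  ring

lemma isDer_mulLeft (a : R) {d : R →+ R} (h : IsDer d) :
    IsDer ((AddMonoidHom.mulLeft a).comp d) := by
  intro x y
  simp only [AddMonoidHom.comp_apply, mulLeft_app]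
  rw [h]
  ring

lemma isDer_zero : IsDer (0 : R →+ R) := by
  intro x y
  simp

lemma isDer_sum {ι : Type} (t : Finset ι) (d : ι → R →+ R) (h : ∀ i ∈ t, IsDer (d i)) :
    IsDer (∑ i ∈ t, d i) := by
  classical
  induction t using Finset.induction_on with
  | empty => rw [Finset.sum_empty]; exact isDer_zero
  | insert a t ha ih =>
    rw [Finset.sum_insert ha]
    exact isDer_add (h a (Finset.mem_insert_self a t))
      (ih fun i hi => h i (Finset.mem_insert_of_mem hi))

end der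

section hor
variable {n M : ℕ} {R : Type} [CommRing R]

/-- the pairing is horizontal for `d` -/
def LHor (c : Grid n M → R) (δ : PP n R →ₗ[R] PP n R →ₗ[R] R) (d : R →+ R) : Prop :=
  ∀ a x, IsCone M false a → IsCone M true x → d (δ a x) = δ (nab d c a) x + δ a (nab d c x)

lemma cder_dadd (d1 d2 : R →+ R) (x : PP n R) : cder (d1 + d2) x = cder d1 x + cder d2 x := by
  ext s
  rw [coeff_cder, coeff_add, coeff_cder, coeff_cder, AddMonoidHom.add_apply]

lemma cder_dmul (a : R) (d : R →+ R) (x : PP n R) :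
    cder ((AddMonoidHom.mulLeft a).comp d) x = C a * cder d x := by
  ext s
  rw [coeff_cder, coeff_C_mul, coeff_cder, AddMonoidHom.comp_apply, mulLeft_app]

lemma LHor.add {c : Grid n M → R} {δ : PP n R →ₗ[R] PP n R →ₗ[R] R} {d1 d2 : R →+ R}
    (h1 : LHor c δ d1) (h2 : LHor c δ d2) : LHor c δ (d1 + d2) := by
  intro a x ha hx
  have e : ∀ y : PP n R, nab (d1 + d2) c y = nab d1 c y + nab d2 c y := by
    intro y
    unfold nab
    rw [cder_dadd, cder_dadd]
    ring
  rw [e, e, AddMonoidHom.add_apply, h1 a x ha hx, h2 a x ha hx, map_add, map_add,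
    LinearMap.add_apply]
  ring

lemma LHor.mulLeft {c : Grid n M → R} {δ : PP n R →ₗ[R] PP n R →ₗ[R] R} (r : R) {d : R →+ R}
    (h : LHor c δ d) : LHor c δ ((AddMonoidHom.mulLeft r).comp d) := by
  intro a x ha hx
  have e : ∀ y : PP n R, nab ((AddMonoidHom.mulLeft r).comp d) c y = r • nab d c y := by
    intro y
    unfold nab
    rw [cder_dmul, cder_dmul, smul_eq_C_mul]
    ring
  rw [e, e, AddMonoidHom.comp_apply, mulLeft_app, h a x ha hx, map_smul, map_smul,
    LinearMap.smul_apply, smul_eq_mul, smul_eq_mul]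
  ring

lemma LHor.zero {c : Grid n M → R} {δ : PP n R →ₗ[R] PP n R →ₗ[R] R} :
    LHor c δ (0 : R →+ R) := by
  intro a x _ _
  have e : ∀ y : PP n R, nab (0 : R →+ R) c y = 0 := by
    intro y
    have e1 : ∀ y : PP n R, cder (0 : R →+ R) y = 0 := by
      intro y
      ext s
      rw [coeff_cder, coeff_zero, AddMonoidHom.zero_apply]
    unfold nab
    rw [e1, e1]
    ring
  rw [e, e, AddMonoidHom.zero_apply, map_zero, map_zero, LinearMap.zero_apply, add_zero]

lemma LHor.sum {c : Grid n M → R} {δ : PP n R →ₗ[R] PP n R →ₗ[R] R} {ι : Type} (t : Finset ι)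
    (d : ι → R →+ R) (h : ∀ i ∈ t, LHor c δ (d i)) : LHor c δ (∑ i ∈ t, d i) := by
  classical
  induction t using Finset.induction_on with
  | empty => rw [Finset.sum_empty]; exact LHor.zero
  | insert a t ha ih =>
    rw [Finset.sum_insert ha]
    exact (h a (Finset.mem_insert_self a t)).add
      (ih fun i hi => h i (Finset.mem_insert_of_mem hi))

end hor

section ops
variable (q : ℕ) (R : Type) [CommRing R]

lemma cwA_single {G : Type} [AddCommGroup G] [LinearOrder G] [IsOrderedAddMonoid G]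
    {A B : Type} [CommRing A] [CommRing B] (d : A →+ B) (g : G) (y : A) :
    cwA d (HahnSeries.single g y : HahnSeries G A) = HahnSeries.single g (d y) := by
  ext h
  rw [cwA_coeff]
  by_cases e : h = g
  · rw [e, HahnSeries.coeff_single_same, HahnSeries.coeff_single_same]
  · rw [HahnSeries.coeff_single_of_ne e, HahnSeries.coeff_single_of_ne e, map_zero]

lemma hw_single {G : Type} [AddCommGroup G] [LinearOrder G] [IsOrderedAddMonoid G]
    {A : Type} [CommRing A] (e : G →+ ℤ) (g : G) (y : A) :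
    hw e (HahnSeries.single g y : HahnSeries G A) = HahnSeries.single g ((e g : A) * y) := by
  ext h
  rw [hw_coeff]
  by_cases e1 : h = g
  · rw [e1, HahnSeries.coeff_single_same, HahnSeries.coeff_single_same]
  · rw [HahnSeries.coeff_single_of_ne e1, HahnSeries.coeff_single_of_ne e1, mul_zero]

lemma thLc_comm (i j : Fin q) (x : LL q R) :
    thLc q R i (thLc q R j x) = thLc q R j (thLc q R i x) := by
  apply HahnSeries.ext; funext m
  apply HahnSeries.ext; funext m'
  apply HahnSeries.ext; funext g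
  show (gco q i g : R) * ((gco q j g : R) * _) = (gco q j g : R) * ((gco q i g : R) * _)
  ring

lemma thLc_thLt (i : Fin q) (x : LL q R) :
    thLc q R i (thLt q R x) = thLt q R (thLc q R i x) := by
  apply HahnSeries.ext; funext m
  show thOc q R i ((m : OO q R) * x.coeff m) = (m : OO q R) * thOc q R i (x.coeff m)
  rw [← zsmul_eq_mul, map_zsmul, zsmul_eq_mul]

lemma thLc_C (i : Fin q) (y : OO q R) :
    thLc q R i (HahnSeries.C y) = HahnSeries.C (thOc q R i y) := cwA_single _ _ _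

lemma thOc_C (i : Fin q) (y : CC q R) :
    thOc q R i (HahnSeries.C y) = HahnSeries.C (thC q R i y) := cwA_single _ _ _

lemma thC_C (i : Fin q) (y : R) : thC q R i (HahnSeries.C y) = 0 := by
  unfold thC
  rw [HahnSeries.C_apply, hw_single, map_zero, Int.cast_zero, zero_mul, HahnSeries.single_eq_zero]

lemma thLc_kL (i : Fin q) (y : R) : thLc q R i (kL q R y) = 0 := by
  unfold kL
  rw [RingHom.comp_apply, RingHom.comp_apply, thLc_C, thOc_C, thC_C, map_zero, map_zero]

lemma thLt_C (y : OO q R) : thLt q R (HahnSeries.C y) = 0 := by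
  show hw (AddMonoidHom.id ℤ) (HahnSeries.C y : LaurentSeries (OO q R)) = 0
  rw [HahnSeries.C_apply, hw_single, map_zero, Int.cast_zero, zero_mul, HahnSeries.single_eq_zero]

lemma thLc_wL (i : Fin q) : thLc q R i (wL q R) = 0 := by
  unfold wL wO tt
  rw [thLc_C]
  have h : thOc q R i (HahnSeries.single (1 : ℤ) (1 : CC q R)) =
      HahnSeries.single (1 : ℤ) (thC q R i (1 : CC q R)) := cwA_single _ _ _
  have h2 : thC q R i (1 : CC q R) = 0 := by
    have := thC_C q R i 1
    rwa [map_one] at this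
  rw [h, h2, HahnSeries.single_eq_zero, map_zero]

lemma tL_pow (D : ℕ) : tL q R ^ D = HahnSeries.single (D : ℤ) (1 : OO q R) := by
  unfold tL tt
  rw [HahnSeries.single_pow, one_pow, nsmul_eq_mul, mul_one]

lemma thLc_av (D : ℕ) (i j : Fin q) : thLc q R i (tL q R ^ D * vL q R j) =
    if j = i then tL q R ^ D * vL q R j else 0 := by
  have h : tL q R ^ D * vL q R j =
      (HahnSeries.single (D : ℤ) (HahnSeries.C (vC q R j) : OO q R) : LL q R) := by
    rw [tL_pow]
    unfold vL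
    rw [HahnSeries.C_apply, HahnSeries.single_mul_single, add_zero, one_mul]
  have h1 : thLc q R i (HahnSeries.single (D : ℤ) (HahnSeries.C (vC q R j) : OO q R) : LL q R) =
      HahnSeries.single (D : ℤ) (thOc q R i (HahnSeries.C (vC q R j))) := cwA_single _ _ _
  rw [h, h1, thOc_C]
  have h2 : thC q R i (vC q R j) = if j = i then vC q R j else 0 := by
    unfold thC vC
    rw [hw_single, mul_one]
    have h3 : gco q i (toLex (Pi.single j (1 : ℤ))) = if j = i then 1 else 0 := by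
      show (Pi.single j (1 : ℤ) : Fin q → ℤ) i = _
      rw [Pi.single_apply]
      by_cases e : i = j
      · rw [if_pos e, if_pos e.symm]
      · rw [if_neg e, if_neg (Ne.symm e)]
    rw [h3]
    by_cases e : j = i
    · rw [if_pos e, if_pos e, Int.cast_one]
    · rw [if_neg e, if_neg e, Int.cast_zero, HahnSeries.single_eq_zero]
  rw [h2]
  by_cases e : j = i
  · rw [if_pos e, if_pos e]
  · rw [if_neg e, if_neg e, map_zero, HahnSeries.single_eq_zero]

lemma thLt_av (D : ℕ) (j : Fin q) : thLt q R (tL q R ^ D * vL q R j) =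
    (D : LL q R) * (tL q R ^ D * vL q R j) := by
  have h : tL q R ^ D * vL q R j =
      (HahnSeries.single (D : ℤ) (HahnSeries.C (vC q R j) : OO q R) : LL q R) := by
    rw [tL_pow]
    unfold vL
    rw [HahnSeries.C_apply, HahnSeries.single_mul_single, add_zero, one_mul]
  have h1 : thLt q R (HahnSeries.single (D : ℤ) (HahnSeries.C (vC q R j) : OO q R) : LL q R) =
      HahnSeries.single (D : ℤ) (((D : ℤ) : OO q R) * (HahnSeries.C (vC q R j))) :=
    hw_single _ _ _
  have h2 : (D : LL q R) = HahnSeries.single (0 : ℤ) (D : OO q R) := by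
    rw [← HahnSeries.C_apply, map_natCast]
  rw [h, h1, h2, HahnSeries.single_mul_single, zero_add, Int.cast_natCast]

end ops

section field
variable {n M : ℕ} {K : Type} [Field K] [CharZero K]

lemma der_inv {F : Type} [Field F] {d : F →+ F} (hd : IsDer d) {a : F} (ha : a ≠ 0) :
    d a⁻¹ = -(a⁻¹ * a⁻¹ * d a) := by
  have h := hd a a⁻¹
  rw [mul_inv_cancel₀ ha, H75.isDer_one hd] at h
  have h2 : a * d a⁻¹ = -(d a * a⁻¹) := by
    rw [eq_neg_iff_add_eq_zero, add_comm]
    exact h.symm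
  calc d a⁻¹ = a⁻¹ * (a * d a⁻¹) := by rw [← mul_assoc, inv_mul_cancel₀ ha, one_mul]
    _ = -(a⁻¹ * a⁻¹ * d a) := by rw [h2]; ring

/-- the coefficient `t^D c'_β` -/
def av (n M D : ℕ) (K : Type) [Field K] (β : Grid n M) : LL (qG n M) K :=
  tL (qG n M) K ^ D * vL (qG n M) K (gi β)

lemma av_ne (D : ℕ) (β : Grid n M) : av n M D K β ≠ 0 := by
  unfold av
  apply mul_ne_zero
  · rw [tL_pow]
    exact HahnSeries.single_ne_zero one_ne_zero
  · unfold vL vC
    rw [Ne, map_eq_zero, map_eq_zero]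
    exact HahnSeries.single_ne_zero one_ne_zero

lemma ordGe_av (D : ℕ) (β : Grid n M) : OrdGe (D : ℤ) (av n M D K β) := by
  have h := ordGe_mul (R := OO (qG n M) K) (a := D) (b := 0)
    (x := tL (qG n M) K ^ D) (y := vL (qG n M) K (gi β)) ?_ (ordGe_C _)
  · rw [add_zero] at h
    exact h
  · rw [tL_pow]
    intro i hi
    exact HahnSeries.coeff_single_of_ne (ne_of_lt hi)

/-- the partial derivations -/
def pdK (n M D : ℕ) (K : Type) [Field K] (β : Grid n M) :
    LL (qG n M) K →+ LL (qG n M) K :=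
  (AddMonoidHom.mulLeft (av n M D K β)⁻¹).comp (thLc (qG n M) K (gi β))

lemma pdK_apply (D : ℕ) (β : Grid n M) (x : LL (qG n M) K) :
    pdK n M D K β x = (av n M D K β)⁻¹ * thLc (qG n M) K (gi β) x := rfl

lemma der_cgen {D : ℕ} {f : MvPolynomial (Fin n) K} {d : LL (qG n M) K →+ LL (qG n M) K}
    (hd : IsDer d) (hw : d (wL (qG n M) K) = 0) (hk : ∀ y, d (kL (qG n M) K y) = 0)
    (β : Grid n M) : d (cgen D f β) = d (av n M D K β) := by
  unfold cgen av
  rw [map_add, map_sub, H75.isDer_nat hd, hd (wL (qG n M) K), hw, hk]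
  ring

lemma thLc_cgen (hd : ∀ i, IsDer (R := LL (qG n M) K) (thLc (qG n M) K i)) (D : ℕ)
    (f : MvPolynomial (Fin n) K) (β β' : Grid n M) :
    thLc (qG n M) K (gi β) (cgen D f β') = if β' = β then av n M D K β' else 0 := by
  rw [der_cgen (hd _) (thLc_wL _ _ _) (thLc_kL _ _ _)]
  unfold av
  rw [thLc_av]
  by_cases h : β' = β
  · rw [if_pos h, if_pos (by rw [h])]
  · rw [if_neg h, if_neg (fun e => h (gi.injective e))]

lemma thLt_cgen (hd : IsDer (R := LL (qG n M) K) (thLt (qG n M) K)) (D : ℕ)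
    (f : MvPolynomial (Fin n) K) (β : Grid n M) :
    thLt (qG n M) K (cgen D f β) = (D : LL (qG n M) K) * av n M D K β := by
  rw [der_cgen hd (thLt_C _ _ _) (fun y => thLt_C _ _ _)]
  unfold av
  rw [thLt_av]

lemma pder (hd : ∀ i, IsDer (R := LL (qG n M) K) (thLc (qG n M) K i)) (D : ℕ)
    (f : MvPolynomial (Fin n) K) :
    PDer (R := LL (qG n M) K) (cgen (M := M) D f) (pdK n M D K) := by
  refine ⟨fun β => isDer_mulLeft _ (hd _), ?_, ?_⟩
  · have key : ∀ β β' (x : LL (qG n M) K), pdK n M D K β (pdK n M D K β' x) =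
        (av n M D K β)⁻¹ * (av n M D K β')⁻¹ * thLc (qG n M) K (gi β) (thLc (qG n M) K (gi β') x) -
        (if β = β' then (av n M D K β)⁻¹ * (av n M D K β)⁻¹ * thLc (qG n M) K (gi β) x else 0) := by
      intro β β' x
      rw [pdK_apply, pdK_apply, hd, der_inv (hd _) (av_ne D β')]
      unfold av
      rw [thLc_av]
      by_cases h : β = β'
      · subst h
        rw [if_pos rfl, if_pos rfl]
        have h0 : (tL (qG n M) K ^ D * vL (qG n M) K (gi β)) ≠ 0 := av_ne D β
        field_simp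
        ring
      · rw [if_neg h, if_neg (fun e => h (gi.injective e.symm))]
        ring
    intro β β' x
    rw [key, key, thLc_comm]
    by_cases h : β = β'
    · subst h
      rfl
    · rw [if_neg h, if_neg (Ne.symm h)]
      ring
  · intro β β'
    rw [pdK_apply, thLc_cgen hd]
    by_cases h : β' = β
    · rw [if_pos h, if_pos h, h, inv_mul_cancel₀ (av_ne D β)]
    · rw [if_neg h, if_neg h, mul_zero]

/-- `thLt` without its part along the generic parameters -/
def dP (n M D : ℕ) (K : Type) [Field K] : LL (qG n M) K →+ LL (qG n M) K :=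
  thLt (qG n M) K - ∑ β : Grid n M,
    (AddMonoidHom.mulLeft (D : LL (qG n M) K)).comp (thLc (qG n M) K (gi β))

lemma dP_apply (D : ℕ) (x : LL (qG n M) K) : dP n M D K x =
    thLt (qG n M) K x - ∑ β : Grid n M, (D : LL (qG n M) K) * thLc (qG n M) K (gi β) x := by
  unfold dP
  rw [AddMonoidHom.sub_apply, AddMonoidHom.finsetSum_apply]
  rfl

lemma isDer_dP (ht : IsDer (R := LL (qG n M) K) (thLt (qG n M) K))
    (hd : ∀ i, IsDer (R := LL (qG n M) K) (thLc (qG n M) K i)) (D : ℕ) :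
    IsDer (dP n M D K) :=
  isDer_sub ht (isDer_sum _ _ fun _ _ => isDer_mulLeft _ (hd _))

lemma dP_av (D : ℕ) (β : Grid n M) : dP n M D K (av n M D K β) = 0 := by
  rw [dP_apply]
  unfold av
  rw [thLt_av]
  simp only [thLc_av]
  have h : ∀ β' : Grid n M, (D : LL (qG n M) K) * (if gi β = gi β' then
      tL (qG n M) K ^ D * vL (qG n M) K (gi β) else 0) = if β = β' then
      (D : LL (qG n M) K) * (tL (qG n M) K ^ D * vL (qG n M) K (gi β)) else 0 := by
    intro β'
    by_cases e : β = β'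
    · rw [if_pos e, if_pos (by rw [e])]
    · rw [if_neg e, if_neg (fun e' => e (gi.injective e')), mul_zero]
  simp only [h]
  rw [Finset.sum_ite_eq, if_pos (Finset.mem_univ _), sub_self]

lemma dP_cgen (ht : IsDer (R := LL (qG n M) K) (thLt (qG n M) K))
    (hd : ∀ i, IsDer (R := LL (qG n M) K) (thLc (qG n M) K i)) (D : ℕ)
    (f : MvPolynomial (Fin n) K) (β : Grid n M) : dP n M D K (cgen D f β) = 0 := by
  rw [der_cgen (isDer_dP ht hd D), dP_av]
  · rw [dP_apply]
    have : ∀ β : Grid n M, (D : LL (qG n M) K) * thLc (qG n M) K (gi β) (wL (qG n M) K) = 0 := by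
      intro β
      rw [thLc_wL, mul_zero]
    rw [Finset.sum_eq_zero fun β _ => this β, sub_zero]
    exact thLt_C _ _ _
  · intro y
    rw [dP_apply]
    have : ∀ β : Grid n M, (D : LL (qG n M) K) * thLc (qG n M) K (gi β) (kL (qG n M) K y) = 0 := by
      intro β
      rw [thLc_kL, mul_zero]
    rw [Finset.sum_eq_zero fun β _ => this β, sub_zero]
    exact thLt_C _ _ _

lemma dP_pdK (ht : IsDer (R := LL (qG n M) K) (thLt (qG n M) K))
    (hd : ∀ i, IsDer (R := LL (qG n M) K) (thLc (qG n M) K i)) (D : ℕ)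
    (β : Grid n M) (x : LL (qG n M) K) :
    dP n M D K (pdK n M D K β x) = pdK n M D K β (dP n M D K x) := by
  rw [pdK_apply, pdK_apply, isDer_dP ht hd D, der_inv (isDer_dP ht hd D) (av_ne D β), dP_av,
    mul_zero, neg_zero, zero_mul, zero_add]
  congr 1
  rw [dP_apply, dP_apply, map_sub, map_sum, thLc_thLt]
  congr 1
  refine Finset.sum_congr rfl (fun β' _ => ?_)
  rw [hd, H75.isDer_nat (hd _), zero_mul, zero_add, thLc_comm]

lemma thLt_eq (D : ℕ) : thLt (qG n M) K = dP n M D K + ∑ β : Grid n M,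
    (AddMonoidHom.mulLeft ((D : LL (qG n M) K) * av n M D K β)).comp (pdK n M D K β) := by
  ext x : 1
  rw [AddMonoidHom.add_apply, dP_apply, AddMonoidHom.finsetSum_apply]
  have : ∀ β : Grid n M, ((AddMonoidHom.mulLeft ((D : LL (qG n M) K) * av n M D K β)).comp
      (pdK n M D K β)) x = (D : LL (qG n M) K) * thLc (qG n M) K (gi β) x := by
    intro β
    rw [AddMonoidHom.comp_apply, mulLeft_app, pdK_apply, mul_assoc, ← mul_assoc (av n M D K β),
      mul_inv_cancel₀ (av_ne D β), one_mul]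
  rw [Finset.sum_congr rfl fun β _ => this β, sub_add_cancel]

end field

section lin
variable {n M : ℕ} {b : Bool} {R : Type} [CommRing R]

/-- element with given coordinates -/
def eR (A : CAD n M b) (c : Grid n M → R) (r : A.Bas → R) : PP n R := ∑ s, r s • bb A c s

lemma G_val (hHB2 : Hb2Stmt) (hn : 1 ≤ n) (hM : 1 ≤ M) {A : CAD n M b} {c : Grid n M → R}
    (hu : IsUnit (dt A c)) (G : PP n R →ₗ[R] R)
    (hG : ∀ i σ, IsCone M b σ → G (Dop c i σ) = 0) (x : PP n R) (hx : IsCone M b x) :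
    G x = ∑ s : A.Bas, crd A c x s * G (bb A c s) := by
  obtain ⟨l, hl⟩ := H10.exists_levLe x
  obtain ⟨σ, hσ, _, e, _⟩ := hHB2 n M b A R c hn hM hu l x hx hl
  conv_lhs => rw [e]
  rw [map_add, map_sum, map_sum, Finset.sum_eq_zero fun i _ => hG i (σ i) (hσ i), add_zero]
  refine Finset.sum_congr rfl (fun s _ => ?_)
  rw [← smul_eq_C_mul, map_smul, smul_eq_mul]

lemma G_eR {A : CAD n M b} {c : Grid n M → R} (G : PP n R →ₗ[R] R) (r : A.Bas → R) :
    G (eR A c r) = ∑ s : A.Bas, r s * G (bb A c s) := by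
  unfold eR
  rw [map_sum]
  refine Finset.sum_congr rfl (fun s _ => ?_)
  rw [map_smul, smul_eq_mul]

lemma cone_eR (hJ : JConeStmt) (hn : 1 ≤ n) (hM : 1 ≤ M) (A : CAD n M b) (c : Grid n M → R)
    (r : A.Bas → R) : IsCone M b (eR A c r) := by
  unfold eR
  rw [← H75.mem_coneSub]
  exact Submodule.sum_mem _ fun s _ =>
    Submodule.smul_mem _ _ ((H10.isCone_bb hJ A hn hM c s).1)

lemma G_nab (hHB2 : Hb2Stmt) (hJ : JConeStmt) (hn : 1 ≤ n) (hM : 1 ≤ M) {A : CAD n M b}
    {c : Grid n M → R} (hu : IsUnit (dt A c)) (G : PP n R →ₗ[R] R)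
    (hG : ∀ i σ, IsCone M b σ → G (Dop c i σ) = 0) {d : R →+ R} (hd : IsDer d)
    {U Ui Rv : Matrix A.Bas A.Bas R} (gau : Gauge d U Ui (Rm A d c) Rv) (j : A.Bas) :
    G (nab d c (eR A c fun s => U s j)) = ∑ j', Rv j' j * G (eR A c fun s => U s j') := by
  have h1 : nab d c (eR A c fun s => U s j) =
      ∑ s : A.Bas, (d (U s j) • bb A c s + U s j • nab d c (bb A c s)) := by
    unfold eR
    rw [← H75.nabA_apply, map_sum]
    refine Finset.sum_congr rfl (fun s _ => ?_)
    rw [H75.nabA_apply, H75.nab_smul hd]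
  have h2 : ∀ s : A.Bas, G (nab d c (bb A c s)) = ∑ s' : A.Bas, Rm A d c s' s * G (bb A c s') := by
    intro s
    rw [G_val hHB2 hn hM hu G hG _ (H75.cone_nab d c (H10.isCone_bb hJ A hn hM c s).1)]
    rfl
  have h3 : G (nab d c (eR A c fun s => U s j)) =
      ∑ s : A.Bas, (d (U s j) + (Rm A d c * U) s j) * G (bb A c s) := by
    rw [h1, map_sum]
    have e1 : ∀ s : A.Bas, G (d (U s j) • bb A c s + U s j • nab d c (bb A c s)) =
        d (U s j) * G (bb A c s) + ∑ s' : A.Bas, U s j * (Rm A d c s' s * G (bb A c s')) := by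
      intro s
      rw [map_add, map_smul, map_smul, h2 s, smul_eq_mul, smul_eq_mul, Finset.mul_sum]
    rw [Finset.sum_congr rfl fun s _ => e1 s, Finset.sum_add_distrib, Finset.sum_comm,
      ← Finset.sum_add_distrib]
    refine Finset.sum_congr rfl (fun s _ => ?_)
    rw [add_mul, Matrix.mul_apply, Finset.sum_mul]
    congr 1
    refine Finset.sum_congr rfl (fun s' _ => ?_)
    ring
  have h4 : ∀ s : A.Bas, d (U s j) + (Rm A d c * U) s j = (U * Rv) s j := by
    intro s
    rw [← gau.eq]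
    rfl
  rw [h3]
  have e2 : ∀ j' : A.Bas, Rv j' j * G (eR A c fun s => U s j') =
      ∑ s : A.Bas, U s j' * Rv j' j * G (bb A c s) := by
    intro j'
    rw [G_eR, Finset.mul_sum]
    refine Finset.sum_congr rfl (fun s _ => ?_)
    ring
  rw [Finset.sum_congr rfl fun j' _ => e2 j', Finset.sum_comm]
  refine Finset.sum_congr rfl (fun s _ => ?_)
  rw [h4, Matrix.mul_apply, Finset.sum_mul]

/-- matrix of the pairing on two lattices -/
def pS (A0 : CAD n M false) (A : CAD n M true) (c : Grid n M → R)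
    (δ : PP n R →ₗ[R] PP n R →ₗ[R] R) (U0 : Matrix A0.Bas A0.Bas R) (U : Matrix A.Bas A.Bas R) :
    Matrix A0.Bas A.Bas R :=
  Matrix.of fun i j => δ (eR A0 c fun s => U0 s i) (eR A c fun s => U s j)

lemma pS_apply (A0 : CAD n M false) (A : CAD n M true) (c : Grid n M → R)
    (δ : PP n R →ₗ[R] PP n R →ₗ[R] R) (U0 : Matrix A0.Bas A0.Bas R) (U : Matrix A.Bas A.Bas R)
    (i : A0.Bas) (j : A.Bas) :
    pS A0 A c δ U0 U i j = δ (eR A0 c fun s => U0 s i) (eR A c fun s => U s j) := rfl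

/-- the hypotheses on the pairing -/
structure PairD (c : Grid n M → R) (δ : PP n R →ₗ[R] PP n R →ₗ[R] R) (d : R →+ R) : Prop where
  kl : ∀ i σ x, IsCone M false σ → IsCone M true x → δ (Dop c i σ) x = 0
  kr : ∀ i σ x, IsCone M false x → IsCone M true σ → δ x (Dop c i σ) = 0
  hor : LHor c δ d

lemma pS_hor (hHB2 : Hb2Stmt) (hJ : JConeStmt) (hn : 1 ≤ n) (hM : 1 ≤ M) {A0 : CAD n M false}
    {A : CAD n M true} {c : Grid n M → R} {δ : PP n R →ₗ[R] PP n R →ₗ[R] R} {d : R →+ R}
    (hu0 : IsUnit (dt A0 c)) (hu : IsUnit (dt A c)) (hδ : PairD c δ d) (hd : IsDer d)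
    {U0 Ui0 Rv0 : Matrix A0.Bas A0.Bas R} {U Ui Rv : Matrix A.Bas A.Bas R}
    (gau0 : Gauge d U0 Ui0 (Rm A0 d c) Rv0) (gau : Gauge d U Ui (Rm A d c) Rv) (i : A0.Bas)
    (j : A.Bas) :
    d (pS A0 A c δ U0 U i j) = ∑ i', Rv0 i' i * pS A0 A c δ U0 U i' j +
      ∑ j', pS A0 A c δ U0 U i j' * Rv j' j := by
  have hcone : ∀ j, IsCone M true (eR A c fun s => U s j) := fun j => cone_eR hJ hn hM A c _
  have hcone0 : ∀ j, IsCone M false (eR A0 c fun s => U0 s j) := fun j =>
    cone_eR hJ hn hM A0 c _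
  rw [pS_apply, hδ.hor _ _ (hcone0 i) (hcone j)]
  have e1 := G_nab hHB2 hJ hn hM hu0 (δ.flip (eR A c fun s => U s j))
        (fun i' σ hσ => hδ.kl i' σ _ hσ (hcone j)) hd gau0 i
  have e2 := G_nab hHB2 hJ hn hM hu (δ (eR A0 c fun s => U0 s i))
        (fun i' σ hσ => hδ.kr i' σ _ (hcone0 i) hσ) hd gau j
  simp only [LinearMap.flip_apply] at e1
  rw [e1, e2]
  congr 1
  refine Finset.sum_congr rfl (fun j' _ => ?_)
  rw [pS_apply, mul_comm]

lemma isCone_one' : IsCone M false (1 : PP n R) := by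
  rw [← H75.mon_zero]
  apply H75.supp_mon
  intro k
  simp

lemma topv {A : CAD n M true} {c : Grid n M → R} (hC : IsCrd A c (crd A c))
    (r : A.Bas → R) : gtop A c (eR A c r) = r (topI A) := by
  classical
  show (crd A c (eR A c r)) (topI A) = _
  unfold eR
  rw [map_sum, Finset.sum_apply]
  have : ∀ s : A.Bas, (crd A c (r s • bb A c s)) (topI A) = if topI A = s then r s else 0 := by
    intro s
    rw [map_smul, Pi.smul_apply, H10.crd_bb hC, smul_eq_mul]
    split_ifs
    · rw [mul_one]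
    · rw [mul_zero]
  rw [Finset.sum_congr rfl fun s _ => this s, Finset.sum_ite_eq, if_pos (Finset.mem_univ _)]

lemma kappa_eq (hHB2 : Hb2Stmt) (hJ : JConeStmt) (hn : 1 ≤ n) (hM : 1 ≤ M)
    {A : CAD n M true} {c : Grid n M → R} {δ : PP n R →ₗ[R] PP n R →ₗ[R] R} {d : R →+ R}
    (hu : IsUnit (dt A c)) (hC : IsCrd A c (crd A c)) (hδ : PairD c δ d) (hd : IsDer d)
    (hδ1 : ∀ x, IsCone M true x → δ 1 x = gtop A c x)
    {U Ui Rv : Matrix A.Bas A.Bas R} (gau : Gauge d U Ui (Rm A d c) Rv) (j : A.Bas) :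
    d (U (topI A) j) - ∑ i, U (topI A) i * Rv i j =
      δ (nab d c 1) (eR A c fun s => U s j) := by
  have hcone : ∀ j, IsCone M true (eR A c fun s => U s j) := fun j => cone_eR hJ hn hM A c _
  have htop : ∀ j, δ 1 (eR A c fun s => U s j) = U (topI A) j := by
    intro j
    rw [hδ1 _ (hcone j), topv hC]
  have e1 := G_nab hHB2 hJ hn hM hu (δ 1) (fun i' σ hσ => hδ.kr i' σ _ isCone_one' hσ) hd gau j
  have e2 : ∑ j', Rv j' j * δ 1 (eR A c fun s => U s j') = ∑ i, U (topI A) i * Rv i j := by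
    refine Finset.sum_congr rfl (fun j' _ => ?_)
    rw [htop, mul_comm]
  rw [← htop, hδ.hor _ _ isCone_one' (hcone j), e1, e2, add_sub_cancel_right]

lemma nab_one {c : Grid n M → R} {d : R →+ R} (hd : IsDer d) :
    nab d c 1 = ∑ β : Grid n M, (-(d (c β))) • (mon (gex β) : PP n R) := by
  unfold nab
  have e1 : cder d (1 : PP n R) = 0 := by
    rw [← H75.mon_zero]
    exact H75.cder_mon hd 0
  have e2 : cder d (Fp c) = ∑ β : Grid n M, d (c β) • (mon (gex β) : PP n R) := by
    unfold Fp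
    rw [H75.cder_sum]
    refine Finset.sum_congr rfl (fun β _ => ?_)
    rw [H75.cder_monomial]
    unfold mon
    rw [smul_monomial, smul_eq_mul, mul_one]
  rw [e1, e2, mul_one, zero_sub, ← Finset.sum_neg_distrib]
  refine Finset.sum_congr rfl (fun β _ => ?_)
  rw [neg_smul]

lemma pair_eq (hHB2 : Hb2Stmt) (hJ : JConeStmt) (hn : 1 ≤ n) (hM : 1 ≤ M) {A0 : CAD n M false}
    {A : CAD n M true} {c : Grid n M → R} {δ : PP n R →ₗ[R] PP n R →ₗ[R] R} {d : R →+ R}
    (hu0 : IsUnit (dt A0 c)) (hδ : PairD c δ d)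
    {U0 Ui0 Rv0 : Matrix A0.Bas A0.Bas R} {U : Matrix A.Bas A.Bas R}
    (gau0 : Gauge d U0 Ui0 (Rm A0 d c) Rv0) {x : PP n R} (hx : IsCone M false x) (j : A.Bas) :
    δ x (eR A c fun s => U s j) =
      ∑ i, (Ui0.mulVec (crd A0 c x)) i * pS A0 A c δ U0 U i j := by
  have hcone : IsCone M true (eR A c fun s => U s j) := cone_eR hJ hn hM A c _
  have e1 := G_val hHB2 hn hM hu0 (δ.flip (eR A c fun s => U s j))
      (fun i' σ hσ => hδ.kl i' σ _ hσ hcone) x hx
  simp only [LinearMap.flip_apply] at e1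
  have e3 : U0.mulVec (Ui0.mulVec (crd A0 c x)) = crd A0 c x := by
    rw [Matrix.mulVec_mulVec, gau0.inv, Matrix.one_mulVec]
  have e2 : ∀ s : A0.Bas, crd A0 c x s = ∑ i, U0 s i * (Ui0.mulVec (crd A0 c x)) i :=
    fun s => (congrFun e3 s).symm
  have e4 : ∀ i, pS A0 A c δ U0 U i j =
      ∑ s : A0.Bas, U0 s i * δ (bb A0 c s) (eR A c fun s => U s j) := by
    intro i
    have := G_eR (A := A0) (c := c) (δ.flip (eR A c fun s => U s j)) (fun s => U0 s i)
    simp only [LinearMap.flip_apply] at this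
    rw [pS_apply, this]
  have e5 : ∑ s : A0.Bas, crd A0 c x s * δ (bb A0 c s) (eR A c fun s => U s j) =
      ∑ s : A0.Bas, ∑ i, U0 s i * (Ui0.mulVec (crd A0 c x)) i *
        δ (bb A0 c s) (eR A c fun s => U s j) := by
    refine Finset.sum_congr rfl (fun s _ => ?_)
    rw [← Finset.sum_mul, ← e2 s]
  rw [e1, e5, Finset.sum_comm]
  refine Finset.sum_congr rfl (fun i _ => ?_)
  rw [e4 i, Finset.mul_sum]
  refine Finset.sum_congr rfl (fun s _ => ?_)
  ring

lemma der_mul {I : Type} [Fintype I] {d : R →+ R} (hd : IsDer d) (X Y : Matrix I I R) :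
    (X * Y).map d = X.map d * Y + X * Y.map d := by
  ext i j
  simp only [Matrix.map_apply, Matrix.mul_apply, Matrix.add_apply, map_sum]
  rw [← Finset.sum_add_distrib]
  refine Finset.sum_congr rfl (fun k _ => ?_)
  rw [hd]

lemma der_Ui {I : Type} [Fintype I] [DecidableEq I] {d : R →+ R} (hd : IsDer d)
    {U Ui Q Rv : Matrix I I R} (gau : Gauge d U Ui Q Rv) : Ui.map d + Rv * Ui = Ui * Q := by
  have hone' : (1 : Matrix I I R).map d = 0 := by
    ext i j
    rw [Matrix.map_apply, Matrix.one_apply, Matrix.zero_apply]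
    split_ifs
    · exact H75.isDer_one hd
    · exact map_zero _
  have e2 := der_mul hd U Ui
  rw [gau.inv, hone'] at e2
  have e3 : Ui.map d = -(Ui * (U.map d * Ui)) := by
    calc Ui.map d = Ui * (U * Ui.map d) := by
          rw [← Matrix.mul_assoc, gau.inv', Matrix.one_mul]
      _ = -(Ui * (U.map d * Ui)) := by
          rw [show U * Ui.map d = -(U.map d * Ui) from
            (neg_eq_of_add_eq_zero_right e2.symm).symm, Matrix.mul_neg]
  have e4 : U.map d = U * Rv - Q * U := by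
    rw [← gau.eq, add_sub_cancel_right]
  rw [e3, e4]
  calc -(Ui * ((U * Rv - Q * U) * Ui)) + Rv * Ui
      = -(Ui * U * Rv * Ui) + Ui * Q * (U * Ui) + Rv * Ui := by
        noncomm_ring
    _ = Ui * Q := by
        rw [gau.inv', gau.inv, Matrix.one_mul, Matrix.mul_one]
        abel

lemma Ui_top (hJH : JHorStmt) (hn : 1 ≤ n) (hM : 1 ≤ M)
    {A : CAD n M true} {c : Grid n M → R} {d : R →+ R} (hC : IsCrd A c (crd A c))
    (hd : IsDer d) {U Ui Rv : Matrix A.Bas A.Bas R} (gau : Gauge d U Ui (Rm A d c) Rv)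
    (j : A.Bas) : nbv d Rv (fun j => Ui j (topI A)) j = 0 := by
  have hbt : bb A c (topI A).1 = Jac c := by
    unfold bb bbo
    rw [if_pos ⟨rfl, rfl⟩]
  have hQtop : ∀ s, Rm A d c s (topI A) = 0 := by
    intro s
    obtain ⟨ξ, hξ, e⟩ := hJH n M R c d hn hM hd
    show crd A c (nab d c (bb A c (topI A).1)) s = 0
    rw [hbt, e, H10.crd_sum_Dop hC ξ hξ]
    rfl
  have e2 : nbv d Rv (fun j => Ui j (topI A)) j = (Ui * Rm A d c) j (topI A) := by
    rw [← der_Ui hd gau]
    rfl
  rw [e2, Matrix.mul_apply]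
  refine Finset.sum_eq_zero (fun s _ => ?_)
  rw [hQtop s, mul_zero]

end lin

lemma charZero_OO (q : ℕ) (K : Type) [Field K] [CharZero K] : CharZero (OO q K) := by
  refine ⟨fun a b hab => ?_⟩
  have h2 : ∀ a : ℕ, (a : OO q K) = kO q K (a : K) := by
    intro a
    rw [map_natCast]
  rw [h2, h2] at hab
  have h3 := (kO q K).injective hab
  exact_mod_cast h3

lemma ordGe_natCast {R : Type} [CommRing R] (k : ℕ) : OrdGe 0 (k : LaurentSeries R) := by
  have h : (k : LaurentSeries R) = HahnSeries.C (k : R) := by rw [map_natCast]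
  rw [h]
  exact ordGe_C _

lemma hpol_OO (hHpol : HpolStmt) (q : ℕ) (K : Type) [Field K] [CharZero K] (I : Type) [Fintype I]
    [DecidableEq I] (Q : Matrix I I (LL q K)) (h1 : PolF Q)
    (h2 : (mco 0 Q) ^ Fintype.card I = 0) :
    (∀ x : I → LL q K, (∀ i, OrdGe 0 (nbv (thLt q K) Q x i)) → ∀ i, OrdGe 0 (x i)) ∧
    (∀ G : I → LL q K, (∀ j, OrdGe 0 (thLt q K (G j) - ∑ i, G i * Q i j)) →
      ∀ j, OrdGe 0 (G j)) ∧
    (∀ (J : Type) [Fintype J] [DecidableEq J] (Q1 : Matrix J J (LL q K))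
      (S : Matrix J I (LL q K)), PolF Q1 → (mco 0 Q1) ^ Fintype.card J = 0 →
      (∀ j i, thLt q K (S j i) = ∑ j', Q1 j' j * S j' i + ∑ i', S j i' * Q i' i) → PolF S) := by
  have hcz : CharZero (OO q K) := charZero_OO q K
  exact hHpol (OO q K) I Q h1 h2

section main
variable {n M : ℕ} {K : Type} [Field K] [CharZero K]

/-- the pairing over `LL q K` -/
lemma pairD (hDel : DelStmt) (hOpc : OpcStmt) (hn : 1 ≤ n) (hM : 1 ≤ M) (D : ℕ)
    (f : MvPolynomial (Fin n) K) (A : CAD n M true)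
    (hu : IsUnit (dt A (cgen (M := M) D f))) :
    ∃ δ : PP n (LL (qG n M) K) →ₗ[LL (qG n M) K] PP n (LL (qG n M) K) →ₗ[LL (qG n M) K]
      LL (qG n M) K, PairD (cgen (M := M) D f) δ (thLt (qG n M) K) ∧
      ∀ x, IsCone M true x → δ 1 x = gtop A (cgen D f) x := by
  classical
  obtain ⟨_, _, _, _, _, _, _, _, ht, _, hd⟩ := hOpc (qG n M) K K (RingHom.id K) 1 one_pos
  obtain ⟨δ, hδ1, hδL, hδR, hδd, hδe⟩ := hDel n M A (LL (qG n M) K) (cgen D f)
    (pdK n M D K) hn hM hu (pder hd D f)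
  refine ⟨δ, ⟨hδL, hδR, ?_⟩, hδ1⟩
  have hcF : cder (dP n M D K) (Fp (cgen (M := M) D f)) = 0 := by
    apply MvPolynomial.ext
    intro s
    rw [coeff_cder, coeff_zero]
    unfold Fp
    rw [coeff_sum, map_sum]
    apply Finset.sum_eq_zero
    intro β _
    rw [coeff_monomial]
    split_ifs
    · exact dP_cgen ht hd D f β
    · exact map_zero _
  have h1 : LHor (cgen (M := M) D f) δ (dP n M D K) := by
    intro a x ha hx
    rw [hδe (dP n M D K) (isDer_dP ht hd D) (dP_cgen ht hd D f) (dP_pdK ht hd D) a x ha hx]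
    unfold nab
    rw [hcF, zero_mul, zero_mul, sub_zero, sub_zero]
  have h2 : ∀ β : Grid n M, LHor (cgen (M := M) D f) δ (pdK n M D K β) := fun β a x ha hx =>
    hδd β a x ha hx
  rw [thLt_eq (M := M) D]
  exact h1.add (LHor.sum _ _ fun β _ => (h2 β).mulLeft _)

end main

theorem kap (hHB1 : Hb1Stmt) (hHB2 : Hb2Stmt) (hJ : JConeStmt) (hJH : JHorStmt) (hDel : DelStmt)
    (hHpol : HpolStmt) (hS2 : S2Stmt) (hCgu : CguStmt) (hOpc : OpcStmt) : KapStmt := by
  classical
  intro n M D A K _ _ f U Ui Rv hG hU hA0 hMD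
  obtain ⟨A0, U0, Ui0, Rv0, hU0⟩ := hA0
  have hn := hG.hn
  have hM : 1 ≤ M := by have := hG.hM; omega
  have hu : IsUnit (dt A (cgen (M := M) D f)) :=
    isUnit_iff_ne_zero.mpr (hCgu n M D true A K f hG).1
  have hu0 : IsUnit (dt A0 (cgen (M := M) D f)) :=
    isUnit_iff_ne_zero.mpr (hCgu n M D false A0 K f hG).1
  have hC : IsCrd A (cgen (M := M) D f) (crd A (cgen D f)) :=
    hHB1 n M true A (LL (qG n M) K) (cgen D f) hn hM hu
  have ht := (hOpc (qG n M) K K (RingHom.id K) 1 one_pos).2.2.2.2.2.2.2.2.1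
  obtain ⟨δ, hδ, hδ1⟩ := pairD hDel hOpc hn hM D f A hu
  have hS := fun i j => pS_hor hHB2 hJ hn hM hu0 hu hδ ht hU0.gau hU.gau i j
  have hSpol : PolF (pS A0 A (cgen D f) δ U0 U) :=
    (hpol_OO hHpol (qG n M) K A.Bas Rv hU.pf hU.nil).2.2 A0.Bas Rv0
      (pS A0 A (cgen D f) δ U0 U) hU0.pf hU0.nil hS
  have h1 : ∀ j, OrdGe ((D / M : ℕ) : ℤ) (thLt (qG n M) K (U (topI A) j) -
      ∑ i, U (topI A) i * Rv i j) := by
    intro j
    have e0 : δ (nab (thLt (qG n M) K) (cgen D f) 1) (eR A (cgen D f) fun s => U s j) =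
        ∑ β : Grid n M, (-(thLt (qG n M) K (cgen D f β))) *
          δ (mon (gex β)) (eR A (cgen D f) fun s => U s j) := by
      rw [nab_one ht, map_sum, LinearMap.sum_apply]
      refine Finset.sum_congr rfl (fun β _ => ?_)
      rw [map_smul, LinearMap.smul_apply, smul_eq_mul]
    rw [kappa_eq hHB2 hJ hn hM hu hC hδ ht hδ1 hU.gau j, e0]
    refine ordGe_sum _ _ (fun β _ => ?_)
    rw [pair_eq hHB2 hJ hn hM hu0 hδ hU0.gau (H75.supp_mon (H75.inCone_gex β)) j,
      Finset.mul_sum, thLt_cgen ht D f β]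
    refine ordGe_sum _ _ (fun i _ => ?_)
    have e1 := hS2 n M D A0 K f U0 Ui0 Rv0 hG hU0 hMD β i
    have e2 : OrdGe (D : ℤ) (-((D : LL (qG n M) K) * av n M D K β)) := by
      have := ordGe_neg (ordGe_mul (ordGe_natCast (R := OO (qG n M) K) D)
        (ordGe_av (K := K) D β))
      rwa [zero_add] at this
    have e3 := ordGe_mul e2 (ordGe_mul e1 (hSpol i j))
    exact ordGe_mono (by omega) e3
  refine ⟨h1, ?_, ?_⟩
  · exact (hpol_OO hHpol (qG n M) K A.Bas Rv hU.pf hU.nil).2.1 (fun j => U (topI A) j)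
      (fun j => ordGe_mono (by positivity) (h1 j))
  · refine (hpol_OO hHpol (qG n M) K A.Bas Rv hU.pf hU.nil).1 (fun j => Ui j (topI A))
      (fun j => ?_)
    rw [Ui_top hJH hn hM hC ht hU.gau j]
    exact ordGe_zero _

end Pool.Agent.Helper95_CM.H68
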