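import Pool.Agent.Helper95_CM.StK

/-!
# Lifting Hahn series along a pair of ring homomorphisms (CM project)
-/

set_option autoImplicit false
set_option linter.unusedSectionVars false

noncomputable section

namespace Pool.Agent.Helper95_CM.H68

open HahnSeries

section General

variable {G : Type} [AddCommGroup G] [LinearOrder G] [IsOrderedAddMonoid G]
variable {A B E : Type} [CommRing A] [CommRing B] [CommRing E]

/-- Coefficientwise lifting. -/
lemma exists_lift (i : B →+* E) (z : A →+* E) (hz : Function.Injective z) (x : HahnSeries G B)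
    (h : ∀ g, ∃ a, i (x.coeff g) = z a) : ∃ y : HahnSeries G A, hmap i x = hmap z y := by
  choose a ha using h
  refine ⟨{ coeff := a, isPWO_support' := x.isPWO_support.mono ?_ }, ?_⟩
  · intro g hg hx
    apply hg
    apply hz
    rw [← ha, hx, map_zero, map_zero]
  · ext g
    rw [hmap_coeff, hmap_coeff]
    exact ha g

lemma coeff_lift {i : B →+* E} {z : A →+* E} {x : HahnSeries G B} {y : HahnSeries G A}
    (h : hmap i x = hmap z y) (g : G) : i (x.coeff g) = z (y.coeff g) := by
  have := congrArg (fun s => HahnSeries.coeff s g) h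
  simpa using this

/-- A lift of a nonzero series is a unit if every lift of the leading coefficient is. -/
lemma unit_lift [IsDomain A] {i : B →+* E} (hi : Function.Injective i) {z : A →+* E}
    (hz : Function.Injective z)
    {x : HahnSeries G B} {y : HahnSeries G A} (hx : x ≠ 0) (h : hmap i x = hmap z y)
    (hu : ∀ a, i x.leadingCoeff = z a → IsUnit a) : IsUnit y := by
  have hc := coeff_lift h
  have hiff : ∀ g, y.coeff g = 0 ↔ x.coeff g = 0 := by
    intro g
    constructor
    · intro h0
      have := hc g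
      rw [h0, map_zero] at this
      exact (map_eq_zero_iff i hi).1 this
    · intro h0
      have := hc g
      rw [h0, map_zero] at this
      exact (map_eq_zero_iff z hz).1 this.symm
  have hlead : x.coeff x.order ≠ 0 := by
    rw [← HahnSeries.leadingCoeff_eq]
    exact HahnSeries.leadingCoeff_ne_zero.2 hx
  have hy : y ≠ 0 := by
    rintro rfl
    exact hlead ((hiff _).1 (by simp))
  have hylead : y.coeff y.order ≠ 0 := by
    rw [← HahnSeries.leadingCoeff_eq]
    exact HahnSeries.leadingCoeff_ne_zero.2 hy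
  have hord : y.order = x.order := by
    apply le_antisymm
    · exact HahnSeries.order_le_of_coeff_ne_zero (fun h0 => hlead ((hiff _).1 h0))
    · exact HahnSeries.order_le_of_coeff_ne_zero (fun h0 => hylead ((hiff _).2 h0))
  rw [HahnSeries.isUnit_iff]
  apply hu
  rw [HahnSeries.leadingCoeff_eq, HahnSeries.leadingCoeff_eq, hord]
  exact hc _

end General

section Inv

variable {B' A' E' : Type} [Field B'] [CommRing A'] [CommRing E']

/-- The inverse of a liftable element is liftable when the lift is a unit. -/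
lemma inv_lift {i : B' →+* E'} {z : A' →+* E'} {x : B'} {y : A'} (hx : x ≠ 0) (h : i x = z y)
    (hy : IsUnit y) : ∃ y' : A', i x⁻¹ = z y' := by
  obtain ⟨u, rfl⟩ := hy
  refine ⟨((u⁻¹ : A'ˣ) : A'), ?_⟩
  have h1 : i x⁻¹ * i x = 1 := by rw [← map_mul, inv_mul_cancel₀ hx, map_one]
  have h2 : z (u : A') * z ((u⁻¹ : A'ˣ) : A') = 1 := by rw [← map_mul, Units.mul_inv, map_one]
  calc i x⁻¹ = i x⁻¹ * (z (u : A') * z ((u⁻¹ : A'ˣ) : A')) := by rw [h2, mul_one]
    _ = (i x⁻¹ * i x) * z ((u⁻¹ : A'ˣ) : A') := by rw [h]; ring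
    _ = z ((u⁻¹ : A'ˣ) : A') := by rw [h1, one_mul]

end Inv

lemma zq_injective (p : ℕ) [Fact p.Prime] : Function.Injective (zq p) :=
  FaithfulSMul.algebraMap_injective ℤ_[p] ℚ_[p]

lemma isUnit_of_norm {p : ℕ} [Fact p.Prime] {a : ℤ_[p]} (h : ‖zq p a‖ = 1) : IsUnit a := by
  rw [PadicInt.isUnit_iff, PadicInt.norm_def]
  exact h

lemma exists_zq {p : ℕ} [Fact p.Prime] {b : ℚ_[p]} (h : ‖b‖ ≤ 1) : ∃ a, b = zq p a :=
  ⟨⟨b, h⟩, rfl⟩

lemma hmap_injective {G : Type} [AddCommGroup G] [LinearOrder G] [IsOrderedAddMonoid G]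
    {R S : Type} [CommRing R] [CommRing S] {f : R →+* S} (hf : Function.Injective f) :
    Function.Injective (hmap (G := G) f) := by
  intro x y h
  ext g
  exact hf (coeff_lift h g)

end Pool.Agent.Helper95_CM.H68
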