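import Pool.Agent.Helper33_CM.Finc

/-!
# CM project (MP_31342c_an), module ORDP: orders along `σ ↦ ψ_all(σ F^(p-1))` on level one
-/

set_option autoImplicit false
set_option linter.unusedSectionVars false

noncomputable section

namespace Pool.Agent.Helper95_CM.H68

open MvPolynomial
open Pool.Agent.Helper95_CM.H33

lemma coeff_natPow_mul {R : Type} [CommRing R] (p N : ℕ) (y : LaurentSeries R) (m : ℤ) :
    ((p : LaurentSeries R) ^ N * y).coeff m = (p : R) ^ N * y.coeff m := by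
  have h : (p : LaurentSeries R) ^ N = HahnSeries.C ((p : R) ^ N) := by
    rw [map_pow, map_natCast]
  rw [h, HahnSeries.C_mul_eq_smul, HahnSeries.coeff_smul, smul_eq_mul]

lemma coeff_nat_mul {R : Type} [CommRing R] (p : ℕ) (y : LaurentSeries R) (m : ℤ) :
    ((p : LaurentSeries R) * y).coeff m = (p : R) * y.coeff m := by
  have := coeff_natPow_mul p 1 y m
  rwa [pow_one, pow_one] at this

theorem ordp (htkg : TkgStmt) (hlv1 : Lv1Stmt) (hpmx : PmxStmt) (hhb5 : Hb5Stmt) (hopc : OpcStmt)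
    (hfrb : FrbStmt) : OrdpStmt := by
  classical
  intro n M D b A K _ _ f U Ui Rv hG hU
  obtain ⟨N, C0, p0, hN1, hN2, hT⟩ := htkg n M D b A K f U Ui Rv hG hU 2
  refine ⟨3 + p0, ?_⟩
  intro p _ hp ι f' Dl U' Ui' Rv' hPL σ a hσ hσ1 ha i m hm
  have hp3 : 3 ≤ p := by omega
  have hp0 : 0 < p := by omega
  have hn := hG.hn
  have hM : 1 ≤ M := by have := hG.hM; omega
  obtain ⟨_, hPol, _, _⟩ := hT p (by omega) ι f' Dl U' Ui' Rv' hPL
  set φ : LL (qG n M) ℤ_[p] →+* LL (qG n M) ℤ_[p] := phL (qG n M) ℤ_[p] p with hφ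
  set c : Grid n M → LL (qG n M) ℤ_[p] := cgen D f' with hc
  obtain ⟨τ, hτ, hΨ⟩ := hlv1 n M p b (LL (qG n M) ℤ_[p]) (kL (qG n M) ℤ_[p]) φ
    (thLt (qG n M) ℤ_[p]) c Dl (2 * N) hp3 (by omega) (hfrb (qG n M) p).1 hPL.dl σ hσ1 hσ
  have hPm := hpmx n M p b A (LL (qG n M) ℤ_[p]) (kL (qG n M) ℤ_[p]) φ
    (thLt (qG n M) ℤ_[p]) c Dl N hn hM hp3 hN1 (hfrb (qG n M) p).1 hPL.dl hPL.un σ hσ
  set x : PP n (LL (qG n M) ℤ_[p]) := psi p (σ * Fp c ^ (p - 1)) with hx
  set z : A.Bas → LL (qG n M) ℤ_[p] := fun s => crd A (fun β => φ (c β)) x s with hz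
  set P' := Pm A p (kL (qG n M) ℤ_[p]) N φ c Dl with hP'
  have hone : U' * Ui' = 1 := lift_mul_one hPL.lU hPL.lUi hU.gau.inv
  set y : A.Bas → LL (qG n M) ℤ_[p] := Ui'.mulVec (crd A c σ) with hy
  set W : A.Bas → LL (qG n M) ℤ_[p] := fun i => ∑ s, φ (Ui' i s) * z s with hW
  -- step 1: `p z = Pm crd(σ)` modulo `p^2`
  have h1 : ∀ s, (p : LL (qG n M) ℤ_[p]) ^ 2 ∣ (p : LL (qG n M) ℤ_[p]) * z s -
      (P'.mulVec (crd A c σ)) s := by
    intro s
    have e1 := dvd_trans (pow_dvd_pow _ hN2) (hPm s)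
    rw [hΨ, map_add] at e1
    have e2 : crd A (fun β => φ (c β)) (C (p : LL (qG n M) ℤ_[p]) * x) s =
        (p : LL (qG n M) ℤ_[p]) * z s := by
      rw [C_mul', map_smul, Pi.smul_apply, smul_eq_mul]
    have e3 : (p : LL (qG n M) ℤ_[p]) ^ 2 ∣
        crd A (fun β => φ (c β)) (C ((p : LL (qG n M) ℤ_[p]) ^ 2) * τ) s := by
      rw [C_mul', map_smul, Pi.smul_apply, smul_eq_mul]
      exact Dvd.intro _ rfl
    rw [Pi.add_apply, e2] at e1
    have e4 := dvd_sub e1 e3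
    convert! e4 using 1
    ring
  -- step 2: the product with the matrix `Pv`
  have h2 : ∀ i, (p : LL (qG n M) ℤ_[p]) ^ 2 ∣ (p : LL (qG n M) ℤ_[p]) * W i -
      ((Pv A D N p f' Dl U' Ui').mulVec y) i := by
    intro i
    have e1 : (Pv A D N p f' Dl U' Ui').mulVec y =
        (Ui'.map φ).mulVec (P'.mulVec (crd A c σ)) := by
      have e2 : Pv A D N p f' Dl U' Ui' = Ui'.map φ * P' * U' := rfl
      rw [e2, hy, Matrix.mulVec_mulVec, Matrix.mulVec_mulVec, Matrix.mul_assoc, hone,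
        Matrix.mul_one]
    rw [e1, hW]
    simp only [Matrix.mulVec, dotProduct, Matrix.map_apply, Finset.mul_sum]
    rw [← Finset.sum_sub_distrib]
    refine Finset.dvd_sum (fun s _ => ?_)
    have e3 := (h1 s).mul_left (φ (Ui' i s))
    convert! e3 using 1
    simp only [Matrix.mulVec, dotProduct]
    rw [mul_sub, Finset.mul_sum]
    ring
  -- step 3: coefficients of index less than `a`
  have h3 : ∀ i (k : ℤ), k < a → (p : OO (qG n M) ℤ_[p]) ∣ (W i).coeff k := by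
    intro i k hk
    have e1 : (p : OO (qG n M) ℤ_[p]) ^ 2 ∣ (((Pv A D N p f' Dl U' Ui').mulVec y) i).coeff k := by
      simp only [Matrix.mulVec, dotProduct]
      rw [HahnSeries.coeff_sum]
      refine Finset.dvd_sum (fun j _ => ?_)
      exact dvd_coeff_mul (α := 0) (fun l hl => hPol i j l hl) (ha j) k (by omega)
    obtain ⟨v, hv⟩ := h2 i
    obtain ⟨u, hu⟩ := e1
    have e2 : (p : OO (qG n M) ℤ_[p]) * (W i).coeff k =
        (p : OO (qG n M) ℤ_[p]) ^ 2 * (v.coeff k + u) := by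
      have e3 : (p : LL (qG n M) ℤ_[p]) * W i = (p : LL (qG n M) ℤ_[p]) ^ 2 * v +
          ((Pv A D N p f' Dl U' Ui').mulVec y) i := by rw [← hv]; ring
      have e4 := congrArg (fun t : LL (qG n M) ℤ_[p] => t.coeff k) e3
      simp only [HahnSeries.coeff_add] at e4
      rw [coeff_nat_mul, coeff_natPow_mul, hu] at e4
      rw [e4]
      ring
    refine ⟨v.coeff k + u, ?_⟩
    rw [← sub_eq_zero]
    apply (hfrb (qG n M) p).2.2.1.tf
    rw [mul_sub, e2]
    ring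
  -- step 4: contraction
  have hpsl := (hopc (qG n M) ℤ_[p] ℤ_[p] (RingHom.id _) p hp0).2.2.2.2.2.1
  have h4 : (Ui'.mulVec (crd A c (cder (psL (qG n M) ℤ_[p] p) x))) i =
      psL (qG n M) ℤ_[p] p (W i) := by
    rw [hW]
    simp only [Matrix.mulVec, dotProduct, map_sum]
    refine Finset.sum_congr rfl (fun s _ => ?_)
    rw [hhb5 n M b A (LL (qG n M) ℤ_[p]) φ (psL (qG n M) ℤ_[p] p) c hn hM hPL.un hpsl x s, hpsl]
  rw [h4]
  have h5 : (psL (qG n M) ℤ_[p] p (W i)).coeff m =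
      psO (qG n M) ℤ_[p] p ((W i).coeff (p • m)) := by
    unfold psL
    rw [AddMonoidHom.comp_apply, hpsi_coeff hp0, cwA_coeff]
  rw [h5]
  obtain ⟨v, hv⟩ := h3 i (p • m) (by rw [nsmul_eq_mul]; exact hm)
  rw [hv, ← nsmul_eq_mul, map_nsmul, nsmul_eq_mul]
  exact Dvd.intro _ rfl

end Pool.Agent.Helper95_CM.H68
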