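import Pool.Agent.Helper68_CM.Lift

/-!
# SPC: spreadable elements of `CC` (CM project)
-/

set_option autoImplicit false
set_option linter.unusedSectionVars false

noncomputable section

namespace Pool.Agent.Helper95_CM.H68

open HahnSeries

section
variable {q : ℕ} {K : Type} [Field K] [NumberField K]

lemma sprC_unit (hUni : UniStmt) (x : CC q K) (hx : x ≠ 0) :
    ∃ p0 : ℕ, ∀ (p : ℕ) [Fact p.Prime], p0 ≤ p →
    ∀ (ι : K →+* ℚ_[p]) (y : CC q ℤ_[p]), mC q ι x = mC q (zq p) y → IsUnit y := by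
  obtain ⟨p0, h⟩ := hUni K x.leadingCoeff (HahnSeries.leadingCoeff_ne_zero.2 hx)
  refine ⟨p0, fun p _ hp ι y hy => ?_⟩
  refine unit_lift (i := ι) (z := zq p) ι.injective (zq_injective p) hx hy ?_
  intro a ha
  apply isUnit_of_norm
  rw [← ha]
  exact h p hp ι

lemma SprC.zero : SprC (0 : CC q K) := ⟨0, fun p _ _ ι => ⟨0, by rw [map_zero, map_zero]⟩⟩

lemma SprC.one : SprC (1 : CC q K) := ⟨0, fun p _ _ ι => ⟨1, by rw [map_one, map_one]⟩⟩

lemma SprC.add {x y : CC q K} (hx : SprC x) (hy : SprC y) : SprC (x + y) := by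
  obtain ⟨p0, h⟩ := hx
  obtain ⟨p1, h'⟩ := hy
  refine ⟨max p0 p1, fun p _ hp ι => ?_⟩
  obtain ⟨a, ha⟩ := h p ((le_max_left _ _).trans hp) ι
  obtain ⟨b, hb⟩ := h' p ((le_max_right _ _).trans hp) ι
  exact ⟨a + b, by rw [map_add, map_add, ha, hb]⟩

lemma SprC.mul {x y : CC q K} (hx : SprC x) (hy : SprC y) : SprC (x * y) := by
  obtain ⟨p0, h⟩ := hx
  obtain ⟨p1, h'⟩ := hy
  refine ⟨max p0 p1, fun p _ hp ι => ?_⟩
  obtain ⟨a, ha⟩ := h p ((le_max_left _ _).trans hp) ι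
  obtain ⟨b, hb⟩ := h' p ((le_max_right _ _).trans hp) ι
  exact ⟨a * b, by rw [map_mul, map_mul, ha, hb]⟩

lemma SprC.neg {x : CC q K} (hx : SprC x) : SprC (-x) := by
  obtain ⟨p0, h⟩ := hx
  refine ⟨p0, fun p _ hp ι => ?_⟩
  obtain ⟨a, ha⟩ := h p hp ι
  exact ⟨-a, by rw [map_neg, map_neg, ha]⟩

lemma SprC.inv (hUni : UniStmt) {x : CC q K} (hx : SprC x) : SprC x⁻¹ := by
  by_cases h0 : x = 0
  · rw [h0, inv_zero]
    exact SprC.zero
  · obtain ⟨p0, h⟩ := hx
    obtain ⟨p1, h'⟩ := sprC_unit hUni x h0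
    refine ⟨max p0 p1, fun p _ hp ι => ?_⟩
    obtain ⟨a, ha⟩ := h p ((le_max_left _ _).trans hp) ι
    exact inv_lift h0 ha (h' p ((le_max_right _ _).trans hp) ι a ha)

/-- The subfield of the spreadable elements. -/
def sprC (hUni : UniStmt) (q : ℕ) (K : Type) [Field K] [NumberField K] : Subfield (CC q K) where
  carrier := {x | SprC x}
  mul_mem' := SprC.mul
  one_mem' := SprC.one
  add_mem' := SprC.add
  zero_mem' := SprC.zero
  neg_mem' := SprC.neg
  inv_mem' := fun _ => SprC.inv hUni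

lemma sprC_single (hUni : UniStmt) (a : K) (g : Gam q) :
    SprC (HahnSeries.single g a : CC q K) := by
  by_cases h0 : a = 0
  · rw [h0, map_zero]
    exact SprC.zero
  · obtain ⟨p0, h⟩ := hUni K a h0
    refine ⟨p0, fun p _ hp ι => ?_⟩
    obtain ⟨b, hb⟩ := exists_zq (p := p) (b := ι a) (h p hp ι).le
    refine ⟨HahnSeries.single g b, ?_⟩
    apply HahnSeries.ext
    funext g'
    change ι ((HahnSeries.single g a).coeff g') = zq p ((HahnSeries.single g b).coeff g')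
    by_cases hg : g' = g
    · subst hg
      rw [HahnSeries.coeff_single_same, HahnSeries.coeff_single_same, hb]
    · rw [HahnSeries.coeff_single_of_ne hg, HahnSeries.coeff_single_of_ne hg, map_zero, map_zero]

end

theorem spc (hUni : UniStmt) : SpcStmt := by
  intro q K _ _
  exact ⟨⟨sprC hUni q K, fun x => Iff.rfl⟩, sprC_single hUni,
    fun x _ hx => sprC_unit hUni x hx⟩

end Pool.Agent.Helper95_CM.H68
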