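import Pool.Agent.Helper68_CM.Spo

/-!
# SPG: the working field (CM project)
-/

set_option autoImplicit false
set_option linter.unusedSectionVars false

noncomputable section

namespace Pool.Agent.Helper95_CM.H68

open HahnSeries

section
variable {q : ℕ} {K : Type} [Field K] [NumberField K]

lemma SprL.coeff {x : LL q K} (hx : SprL x) (m : ℤ) : SprO (x.coeff m) := by
  obtain ⟨p0, h⟩ := hx
  refine ⟨p0, fun p _ hp ι => ?_⟩
  obtain ⟨y, hy⟩ := h p hp ι
  exact ⟨y.coeff m, coeff_lift hy m⟩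

lemma sprL_unit (hSpc : SpcStmt) (x : LL q K) (hs : SprL x) (hx : x ≠ 0) :
    ∃ p0 : ℕ, ∀ (p : ℕ) [Fact p.Prime], p0 ≤ p →
    ∀ (ι : K →+* ℚ_[p]) (y : LL q ℤ_[p]), mL q ι x = mL q (zq p) y → IsUnit y := by
  have h1 : SprO x.leadingCoeff := by
    rw [HahnSeries.leadingCoeff_eq]
    exact SprL.coeff hs _
  obtain ⟨p0, h⟩ := sprO_unit hSpc x.leadingCoeff h1 (HahnSeries.leadingCoeff_ne_zero.2 hx)
  refine ⟨p0, fun p _ hp ι y hy => ?_⟩
  refine unit_lift (A := OO q ℤ_[p]) (B := OO q K) (E := OO q ℚ_[p]) (i := mO q ι)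
    (z := mO q (zq p)) (mO_injective ι.injective) (mO_injective (zq_injective p)) hx hy ?_
  intro a ha
  exact h p hp ι a ha

lemma SprL.zero : SprL (0 : LL q K) := ⟨0, fun p _ _ ι => ⟨0, by rw [map_zero, map_zero]⟩⟩

lemma SprL.one : SprL (1 : LL q K) := ⟨0, fun p _ _ ι => ⟨1, by rw [map_one, map_one]⟩⟩

lemma SprL.add {x y : LL q K} (hx : SprL x) (hy : SprL y) : SprL (x + y) := by
  obtain ⟨p0, h⟩ := hx
  obtain ⟨p1, h'⟩ := hy
  refine ⟨max p0 p1, fun p _ hp ι => ?_⟩
  obtain ⟨a, ha⟩ := h p ((le_max_left _ _).trans hp) ι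
  obtain ⟨b, hb⟩ := h' p ((le_max_right _ _).trans hp) ι
  exact ⟨a + b, by rw [map_add, map_add, ha, hb]⟩

lemma SprL.mul {x y : LL q K} (hx : SprL x) (hy : SprL y) : SprL (x * y) := by
  obtain ⟨p0, h⟩ := hx
  obtain ⟨p1, h'⟩ := hy
  refine ⟨max p0 p1, fun p _ hp ι => ?_⟩
  obtain ⟨a, ha⟩ := h p ((le_max_left _ _).trans hp) ι
  obtain ⟨b, hb⟩ := h' p ((le_max_right _ _).trans hp) ι
  exact ⟨a * b, by rw [map_mul, map_mul, ha, hb]⟩

lemma SprL.neg {x : LL q K} (hx : SprL x) : SprL (-x) := by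
  obtain ⟨p0, h⟩ := hx
  refine ⟨p0, fun p _ hp ι => ?_⟩
  obtain ⟨a, ha⟩ := h p hp ι
  exact ⟨-a, by rw [map_neg, map_neg, ha]⟩

lemma SprL.inv (hSpc : SpcStmt) {x : LL q K} (hx : SprL x) : SprL x⁻¹ := by
  by_cases h0 : x = 0
  · rw [h0, inv_zero]
    exact SprL.zero
  · obtain ⟨p1, h'⟩ := sprL_unit hSpc x hx h0
    obtain ⟨p0, h⟩ := hx
    refine ⟨max p0 p1, fun p _ hp ι => ?_⟩
    obtain ⟨a, ha⟩ := h p ((le_max_left _ _).trans hp) ι
    exact inv_lift h0 ha (h' p ((le_max_right _ _).trans hp) ι a ha)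

/-- The subfield of the spreadable elements. -/
def sprL (hSpc : SpcStmt) (q : ℕ) (K : Type) [Field K] [NumberField K] : Subfield (LL q K) where
  carrier := {x | SprL x}
  mul_mem' := SprL.mul
  one_mem' := SprL.one
  add_mem' := SprL.add
  zero_mem' := SprL.zero
  neg_mem' := SprL.neg
  inv_mem' := fun _ => SprL.inv hSpc

lemma SprL.single {m : ℤ} {y : OO q K} (hy : SprO y) :
    SprL (HahnSeries.single m y : LL q K) := by
  obtain ⟨p0, h⟩ := hy
  refine ⟨p0, fun p _ hp ι => ?_⟩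
  obtain ⟨a, ha⟩ := h p hp ι
  refine ⟨HahnSeries.single m a, ?_⟩
  unfold mL
  rw [hmap_single', hmap_single', ha]

/-- The subfield of the series with coefficients in `kF`. -/
def serF (q : ℕ) (K : Type) [Field K] [NumberField K] : Subfield (LL q K) :=
  (hmap (G := ℤ) (kF q K).subtype).fieldRange

lemma mem_serF (x : LL q K) : x ∈ serF q K ↔ ∀ m : ℤ, x.coeff m ∈ kF q K := by
  constructor
  · intro hx m
    obtain ⟨y, rfl⟩ := hx
    rw [hmap_coeff]
    exact (y.coeff m).2
  · intro h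
    obtain ⟨y, hy⟩ := exists_lift (RingHom.id (OO q K)) (kF q K).subtype
      Subtype.coe_injective x (fun g => ⟨⟨x.coeff g, h g⟩, rfl⟩)
    refine ⟨y, ?_⟩
    rw [← hy]
    ext g
    rw [hmap_coeff]
    rfl

lemma inG_single (hSpc : SpcStmt) {y : OO q K} (hy : y ∈ kF q K) (m : ℤ) :
    InG (HahnSeries.single m y : LL q K) := by
  refine ⟨SprL.single (kF_le_sprO hSpc hy), fun m' => ?_⟩
  by_cases hm : m' = m
  · subst hm
    rw [HahnSeries.coeff_single_same]
    exact hy
  · rw [HahnSeries.coeff_single_of_ne hm]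
    exact (kF q K).zero_mem

lemma C_mem_kF {y : CC q K} (hy : SprC y) : (HahnSeries.C y : OO q K) ∈ kF q K :=
  Subfield.subset_closure (Or.inl ⟨y, hy, rfl⟩)

lemma w_mem_kF : wO q K ∈ kF q K := Subfield.subset_closure (Or.inr rfl)

end

theorem spg (hSpc : SpcStmt) : SpgStmt := by
  classical
  intro q K _ _
  have hC := (hSpc q K).2.1
  let S : Subfield (LL q K) := sprL hSpc q K ⊓ serF q K
  have hS : ∀ x, x ∈ S ↔ InG x := by
    intro x
    change (SprL x ∧ x ∈ serF q K) ↔ _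
    rw [mem_serF]
    rfl
  refine ⟨⟨S, hS⟩, ?_, ?_, ?_, ?_, ?_, ?_, ?_⟩
  · intro x hx
    exact inG_single hSpc hx 0
  · exact inG_single hSpc (kF q K).one_mem 1
  · exact inG_single hSpc w_mem_kF 0
  · intro i
    exact inG_single hSpc (C_mem_kF (hC 1 _)) 0
  · intro a
    exact inG_single hSpc (C_mem_kF (hC a 0)) 0
  · intro x hx
    refine ⟨?_, fun m => ?_⟩
    · obtain ⟨p0, h⟩ := hx.1
      refine ⟨p0, fun p _ hp ι => ?_⟩
      obtain ⟨a, ha⟩ := h p hp ι
      refine ⟨thLt q _ a, ?_⟩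
      apply HahnSeries.ext
      funext m
      have h1 := coeff_lift ha m
      change mO q ι ((m : OO q K) * x.coeff m) = mO q (zq p) ((m : OO q ℤ_[p]) * a.coeff m)
      rw [map_mul, map_mul, map_intCast, map_intCast]
      congr 1
    · change (m : OO q K) * x.coeff m ∈ kF q K
      exact (kF q K).mul_mem (intCast_mem _ m) (hx.2 m)
  · intro x hx ⟨a, ha⟩
    have h1 : x = ∑ m ∈ Finset.Icc x.order a, HahnSeries.single m (x.coeff m) := by
      apply HahnSeries.ext
      funext g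
      rw [HahnSeries.coeff_sum]
      by_cases hg : g ∈ Finset.Icc x.order a
      · rw [Finset.sum_eq_single g]
        · rw [HahnSeries.coeff_single_same]
        · intro b _ hb
          exact HahnSeries.coeff_single_of_ne hb.symm
        · intro h
          exact absurd hg h
      · rw [Finset.sum_eq_zero]
        · rw [Finset.mem_Icc, not_and_or, not_le, not_le] at hg
          rcases hg with hg | hg
          · exact HahnSeries.coeff_eq_zero_of_lt_order hg
          · exact ha g hg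
        · intro b hb
          apply HahnSeries.coeff_single_of_ne
          rintro rfl
          exact hg hb
    rw [h1, ← hS]
    exact S.sum_mem fun m _ => (hS _).2 (inG_single hSpc (hx m) m)

end Pool.Agent.Helper95_CM.H68
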