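import Pool.Agent.Helper68_CM.Lift

/-!
# SPO: properties of the field `kF` (CM project)
-/

set_option autoImplicit false
set_option linter.unusedSectionVars false

noncomputable section

namespace Pool.Agent.Helper95_CM.H68

open HahnSeries

lemma hmap_single' {G : Type} [AddCommGroup G] [LinearOrder G] [IsOrderedAddMonoid G]
    {R S : Type} [CommRing R] [CommRing S] (f : R →+* S) (g : G) (a : R) :
    hmap f (HahnSeries.single g a) = HahnSeries.single g (f a) := by
  ext g'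
  rw [hmap_coeff]
  by_cases hg : g' = g
  · subst hg
    rw [HahnSeries.coeff_single_same, HahnSeries.coeff_single_same]
  · rw [HahnSeries.coeff_single_of_ne hg, HahnSeries.coeff_single_of_ne hg, map_zero]

section
variable {q : ℕ} {K : Type} [Field K] [NumberField K]

lemma mC_injective {R S : Type} [CommRing R] [CommRing S] {f : R →+* S}
    (hf : Function.Injective f) : Function.Injective (mC q f) := hmap_injective hf

lemma mO_injective {R S : Type} [CommRing R] [CommRing S] {f : R →+* S}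
    (hf : Function.Injective f) : Function.Injective (mO q f) := hmap_injective (mC_injective hf)

lemma mL_injective {R S : Type} [CommRing R] [CommRing S] {f : R →+* S}
    (hf : Function.Injective f) : Function.Injective (mL q f) := hmap_injective (mO_injective hf)

lemma SprO.coeff {x : OO q K} (hx : SprO x) (m : ℤ) : SprC (x.coeff m) := by
  obtain ⟨p0, h⟩ := hx
  refine ⟨p0, fun p _ hp ι => ?_⟩
  obtain ⟨y, hy⟩ := h p hp ι
  exact ⟨y.coeff m, coeff_lift hy m⟩

lemma sprO_unit (hSpc : SpcStmt) (x : OO q K) (hs : SprO x) (hx : x ≠ 0) :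
    ∃ p0 : ℕ, ∀ (p : ℕ) [Fact p.Prime], p0 ≤ p →
    ∀ (ι : K →+* ℚ_[p]) (y : OO q ℤ_[p]), mO q ι x = mO q (zq p) y → IsUnit y := by
  have h1 : SprC x.leadingCoeff := by
    rw [HahnSeries.leadingCoeff_eq]
    exact SprO.coeff hs _
  obtain ⟨p0, h⟩ := (hSpc q K).2.2 x.leadingCoeff h1 (HahnSeries.leadingCoeff_ne_zero.2 hx)
  refine ⟨p0, fun p _ hp ι y hy => ?_⟩
  refine unit_lift (A := CC q ℤ_[p]) (B := CC q K) (E := CC q ℚ_[p]) (i := mC q ι)
    (z := mC q (zq p)) (mC_injective ι.injective) (mC_injective (zq_injective p)) hx hy ?_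
  intro a ha
  exact h p hp ι a ha

lemma SprO.zero : SprO (0 : OO q K) := ⟨0, fun p _ _ ι => ⟨0, by rw [map_zero, map_zero]⟩⟩

lemma SprO.one : SprO (1 : OO q K) := ⟨0, fun p _ _ ι => ⟨1, by rw [map_one, map_one]⟩⟩

lemma SprO.add {x y : OO q K} (hx : SprO x) (hy : SprO y) : SprO (x + y) := by
  obtain ⟨p0, h⟩ := hx
  obtain ⟨p1, h'⟩ := hy
  refine ⟨max p0 p1, fun p _ hp ι => ?_⟩
  obtain ⟨a, ha⟩ := h p ((le_max_left _ _).trans hp) ι
  obtain ⟨b, hb⟩ := h' p ((le_max_right _ _).trans hp) ι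
  exact ⟨a + b, by rw [map_add, map_add, ha, hb]⟩

lemma SprO.mul {x y : OO q K} (hx : SprO x) (hy : SprO y) : SprO (x * y) := by
  obtain ⟨p0, h⟩ := hx
  obtain ⟨p1, h'⟩ := hy
  refine ⟨max p0 p1, fun p _ hp ι => ?_⟩
  obtain ⟨a, ha⟩ := h p ((le_max_left _ _).trans hp) ι
  obtain ⟨b, hb⟩ := h' p ((le_max_right _ _).trans hp) ι
  exact ⟨a * b, by rw [map_mul, map_mul, ha, hb]⟩

lemma SprO.neg {x : OO q K} (hx : SprO x) : SprO (-x) := by
  obtain ⟨p0, h⟩ := hx
  refine ⟨p0, fun p _ hp ι => ?_⟩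
  obtain ⟨a, ha⟩ := h p hp ι
  exact ⟨-a, by rw [map_neg, map_neg, ha]⟩

lemma SprO.inv (hSpc : SpcStmt) {x : OO q K} (hx : SprO x) : SprO x⁻¹ := by
  by_cases h0 : x = 0
  · rw [h0, inv_zero]
    exact SprO.zero
  · obtain ⟨p1, h'⟩ := sprO_unit hSpc x hx h0
    obtain ⟨p0, h⟩ := hx
    refine ⟨max p0 p1, fun p _ hp ι => ?_⟩
    obtain ⟨a, ha⟩ := h p ((le_max_left _ _).trans hp) ι
    exact inv_lift h0 ha (h' p ((le_max_right _ _).trans hp) ι a ha)

/-- The subfield of the spreadable elements. -/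
def sprO (hSpc : SpcStmt) (q : ℕ) (K : Type) [Field K] [NumberField K] : Subfield (OO q K) where
  carrier := {x | SprO x}
  mul_mem' := SprO.mul
  one_mem' := SprO.one
  add_mem' := SprO.add
  zero_mem' := SprO.zero
  neg_mem' := SprO.neg
  inv_mem' := fun _ => SprO.inv hSpc

lemma SprO.single {m : ℤ} {y : CC q K} (hy : SprC y) :
    SprO (HahnSeries.single m y : OO q K) := by
  obtain ⟨p0, h⟩ := hy
  refine ⟨p0, fun p _ hp ι => ?_⟩
  obtain ⟨a, ha⟩ := h p hp ι
  refine ⟨HahnSeries.single m a, ?_⟩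
  unfold mO
  rw [hmap_single', hmap_single', ha]

lemma sprC_one' : SprC (1 : CC q K) := ⟨0, fun p _ _ ι => ⟨1, by rw [map_one, map_one]⟩⟩

lemma kF_le_sprO (hSpc : SpcStmt) : kF q K ≤ sprO hSpc q K := by
  unfold kF
  rw [Subfield.closure_le]
  rintro x (⟨y, hy, rfl⟩ | hx)
  · exact SprO.single (m := 0) hy
  · rw [Set.mem_singleton_iff] at hx
    subst hx
    exact SprO.single (m := 1) sprC_one'

/-! ### The rational functions -/

/-- value at `w` of a polynomial -/
def evw (P : Polynomial (CC q K)) : OO q K := P.eval₂ HahnSeries.C (wO q K)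

lemma wO_pow (k : ℕ) : (wO q K) ^ k = HahnSeries.single (k : ℤ) (1 : CC q K) := by
  unfold wO tt
  rw [HahnSeries.single_pow, one_pow]
  congr 1
  simp

lemma evw_coeff (P : Polynomial (CC q K)) (m : ℕ) : (evw P).coeff (m : ℤ) = P.coeff m := by
  unfold evw
  induction P using Polynomial.induction_on' with
  | add P Q hP hQ =>
    rw [Polynomial.eval₂_add, HahnSeries.coeff_add, hP, hQ, Polynomial.coeff_add]
  | monomial k a =>
    rw [Polynomial.eval₂_monomial, wO_pow, Polynomial.coeff_monomial]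
    have h1 : (HahnSeries.C a : OO q K) * HahnSeries.single (k : ℤ) (1 : CC q K) =
        HahnSeries.single (k : ℤ) a := by
      change HahnSeries.single (0 : ℤ) a * HahnSeries.single (k : ℤ) (1 : CC q K) = _
      rw [HahnSeries.single_mul_single, zero_add, mul_one]
    rw [h1]
    split_ifs with h
    · subst h
      exact HahnSeries.coeff_single_same _ _
    · apply HahnSeries.coeff_single_of_ne
      intro h2
      apply h
      exact_mod_cast h2.symm

lemma evw_ne {P : Polynomial (CC q K)} (hP : P ≠ 0) : evw P ≠ 0 := by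
  intro h
  apply hP
  ext1 m
  rw [← evw_coeff, h]
  simp

lemma evw_mul (P Q : Polynomial (CC q K)) : evw (P * Q) = evw P * evw Q :=
  Polynomial.eval₂_mul _ _

lemma evw_add (P Q : Polynomial (CC q K)) : evw (P + Q) = evw P + evw Q :=
  Polynomial.eval₂_add _ _

lemma evw_neg (P : Polynomial (CC q K)) : evw (-P) = -evw P := Polynomial.eval₂_neg _

/-- polynomials with spreadable coefficients -/
def SprP (P : Polynomial (CC q K)) : Prop := ∀ i, SprC (P.coeff i)

lemma SprP.add (hSpc : SpcStmt) {P Q : Polynomial (CC q K)} (hP : SprP P) (hQ : SprP Q) :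
    SprP (P + Q) := by
  obtain ⟨S, hS⟩ := (hSpc q K).1
  intro i
  rw [Polynomial.coeff_add, ← hS]
  exact S.add_mem ((hS _).2 (hP i)) ((hS _).2 (hQ i))

lemma SprP.neg (hSpc : SpcStmt) {P : Polynomial (CC q K)} (hP : SprP P) : SprP (-P) := by
  obtain ⟨S, hS⟩ := (hSpc q K).1
  intro i
  rw [Polynomial.coeff_neg, ← hS]
  exact S.neg_mem ((hS _).2 (hP i))

lemma SprP.mul (hSpc : SpcStmt) {P Q : Polynomial (CC q K)} (hP : SprP P) (hQ : SprP Q) :
    SprP (P * Q) := by
  obtain ⟨S, hS⟩ := (hSpc q K).1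
  intro i
  rw [Polynomial.coeff_mul, ← hS]
  exact S.sum_mem fun j _ => S.mul_mem ((hS _).2 (hP _)) ((hS _).2 (hQ _))

lemma SprP.C (hSpc : SpcStmt) {a : CC q K} (ha : SprC a) : SprP (Polynomial.C a) := by
  obtain ⟨S, hS⟩ := (hSpc q K).1
  intro i
  rw [Polynomial.coeff_C, ← hS]
  split_ifs
  · exact (hS _).2 ha
  · exact S.zero_mem

lemma SprP.X (hSpc : SpcStmt) : SprP (Polynomial.X : Polynomial (CC q K)) := by
  obtain ⟨S, hS⟩ := (hSpc q K).1
  intro i
  rw [Polynomial.coeff_X, ← hS]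
  split_ifs
  · exact S.one_mem
  · exact S.zero_mem

/-- quotients of polynomials with spreadable coefficients -/
def Rat' (x : OO q K) : Prop := ∃ A B : Polynomial (CC q K), SprP A ∧ SprP B ∧ B ≠ 0 ∧
  x * evw B = evw A

lemma Rat'.ofC (hSpc : SpcStmt) {a : CC q K} (ha : SprC a) :
    Rat' (HahnSeries.C a : OO q K) := by
  refine ⟨Polynomial.C a, Polynomial.C 1, SprP.C hSpc ha, SprP.C hSpc sprC_one',
    by rw [map_one]; exact one_ne_zero, ?_⟩
  unfold evw
  rw [Polynomial.eval₂_C, Polynomial.eval₂_C, map_one, mul_one]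

lemma Rat'.ofw (hSpc : SpcStmt) : Rat' (wO q K) := by
  refine ⟨Polynomial.X, Polynomial.C 1, SprP.X hSpc, SprP.C hSpc sprC_one',
    by rw [map_one]; exact one_ne_zero, ?_⟩
  unfold evw
  rw [Polynomial.eval₂_C, Polynomial.eval₂_X, map_one, mul_one]

lemma sprC_zero' : SprC (0 : CC q K) := ⟨0, fun p _ _ ι => ⟨0, by rw [map_zero, map_zero]⟩⟩

lemma Rat'.zero (hSpc : SpcStmt) : Rat' (0 : OO q K) := by
  have := Rat'.ofC hSpc (sprC_zero' (q := q) (K := K))
  rwa [map_zero] at this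

lemma Rat'.one (hSpc : SpcStmt) : Rat' (1 : OO q K) := by
  have := Rat'.ofC hSpc (sprC_one' (q := q) (K := K))
  rwa [map_one] at this

lemma Rat'.mul (hSpc : SpcStmt) {x y : OO q K} (hx : Rat' x) (hy : Rat' y) : Rat' (x * y) := by
  obtain ⟨A, B, h1, h2, h3, h4⟩ := hx
  obtain ⟨A', B', h1', h2', h3', h4'⟩ := hy
  refine ⟨A * A', B * B', h1.mul hSpc h1', h2.mul hSpc h2', mul_ne_zero h3 h3', ?_⟩
  rw [evw_mul, evw_mul, ← h4, ← h4']
  ring

lemma Rat'.add (hSpc : SpcStmt) {x y : OO q K} (hx : Rat' x) (hy : Rat' y) : Rat' (x + y) := by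
  obtain ⟨A, B, h1, h2, h3, h4⟩ := hx
  obtain ⟨A', B', h1', h2', h3', h4'⟩ := hy
  refine ⟨A * B' + A' * B, B * B', (h1.mul hSpc h2').add hSpc (h1'.mul hSpc h2),
    h2.mul hSpc h2', mul_ne_zero h3 h3', ?_⟩
  rw [evw_mul, evw_add, evw_mul, evw_mul, ← h4, ← h4']
  ring

lemma Rat'.neg (hSpc : SpcStmt) {x : OO q K} (hx : Rat' x) : Rat' (-x) := by
  obtain ⟨A, B, h1, h2, h3, h4⟩ := hx
  refine ⟨-A, B, h1.neg hSpc, h2, h3, ?_⟩
  rw [evw_neg, ← h4]
  ring

lemma Rat'.inv (hSpc : SpcStmt) {x : OO q K} (hx : Rat' x) : Rat' x⁻¹ := by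
  by_cases h0 : x = 0
  · rw [h0, inv_zero]
    exact Rat'.zero hSpc
  · obtain ⟨A, B, h1, h2, h3, h4⟩ := hx
    have hA : evw A ≠ 0 := by
      rw [← h4]
      exact mul_ne_zero h0 (evw_ne h3)
    refine ⟨B, A, h2, h1, ?_, ?_⟩
    · rintro rfl
      apply hA
      unfold evw
      exact Polynomial.eval₂_zero _ _
    · rw [← h4, ← mul_assoc, inv_mul_cancel₀ h0, one_mul]

/-- The subfield of the rational functions. -/
def ratF (hSpc : SpcStmt) (q : ℕ) (K : Type) [Field K] [NumberField K] : Subfield (OO q K) where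
  carrier := {x | Rat' x}
  mul_mem' := Rat'.mul hSpc
  one_mem' := Rat'.one hSpc
  add_mem' := Rat'.add hSpc
  zero_mem' := Rat'.zero hSpc
  neg_mem' := Rat'.neg hSpc
  inv_mem' := fun _ => Rat'.inv hSpc

lemma kF_le_ratF (hSpc : SpcStmt) : kF q K ≤ ratF hSpc q K := by
  unfold kF
  rw [Subfield.closure_le]
  rintro x (⟨y, hy, rfl⟩ | hx)
  · exact Rat'.ofC hSpc hy
  · rw [Set.mem_singleton_iff] at hx
    subst hx
    exact Rat'.ofw hSpc

end

theorem spo (hSpc : SpcStmt) : SpoStmt := by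
  intro q K _ _ x hx
  have h1 : SprO x := kF_le_sprO hSpc hx
  refine ⟨h1, fun m => SprO.coeff h1 m, ?_, fun h0 => sprO_unit hSpc x h1 h0⟩
  obtain ⟨A, B, hA, hB, hB0, h⟩ := (kF_le_ratF hSpc hx : Rat' x)
  exact ⟨A, B, hA, hB, hB0, h⟩

end Pool.Agent.Helper95_CM.H68
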